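import Pool.Agent.VTP.StmtsW

/-!
# Squad VTP, row TWD: the data of the twist knots
-/

set_option autoImplicit false

namespace Pool.Agent.VTP.H37

open Finset Pool.Agent.ZOL Pool.Agent.VTP

/-- The first letter with label `l ≥ 2` of a twist knot. -/
def Lk (l : ℕ) : Letter := (l, decide (l % 2 = 0), decide (l % 2 = 1))

theorem seg_range : ∀ (n k : ℕ), 2 ≤ k →
    seg tov (decide (k % 2 = 0)) (List.range' k n) = (List.range' k n).map Lk
  | 0, k, _ => by simp [seg]
  | n + 1, k, hk => by
    rw [List.range'_succ, seg, List.map_cons]
    have h1 : (!decide (k % 2 = 0)) = decide ((k + 1) % 2 = 0) := by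
      rcases Nat.mod_two_eq_zero_or_one k with h | h
      · have : (k + 1) % 2 = 1 := by omega
        simp [h, this]
      · have : (k + 1) % 2 = 0 := by omega
        simp [h, this]
    rw [h1, seg_range n (k + 1) (by omega)]
    congr 1
    simp only [Lk, tov]
    rw [if_neg (by omega), if_neg (by omega)]

theorem map_add_range' (n : ℕ) : (List.range n).map (fun m => m + 2) = List.range' 2 n := by
  rw [List.range'_eq_map_range]
  exact List.map_congr_left (fun m _ => Nat.add_comm m 2)

theorem tw_eq (N : ℕ) : tw N = [(0, false, true), (1, true, false)] ++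
    (List.range' 2 (2 * N)).map Lk ++ [(1, false, true), (0, true, false)] ++
    ((List.range' 2 (2 * N)).map Lk).reverse.map bar := by
  have h := seg_range (2 * N) 2 le_rfl
  simp only [Nat.mod_self, decide_true] at h
  unfold tw tg
  rw [map_add_range', h]
  simp [tov]

theorem tw_fst (N : ℕ) : (tw N).map Prod.fst =
    [0, 1] ++ List.range' 2 (2 * N) ++ [1, 0] ++ (List.range' 2 (2 * N)).reverse := by
  rw [tw_eq]
  simp [List.map_reverse, bar, Lk, Function.comp_def]

theorem filt0 (n k : ℕ) (p : ℕ → Bool) (h : ∀ x, k ≤ x → x < k + n → p x = false) :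
    (List.range' k n).filter p = [] := by
  rw [List.filter_eq_nil_iff]
  intro x hx
  rw [List.mem_range'_1] at hx
  simp [h x hx.1 hx.2]

theorem filt1 : ∀ (n k c : ℕ) (p : ℕ → Bool), k ≤ c → c < k + n → p c = true →
    (∀ x, k ≤ x → x < k + n → x ≠ c → p x = false) → (List.range' k n).filter p = [c]
  | 0, k, c, p, h1, h2, _, _ => by omega
  | n + 1, k, c, p, h1, h2, h3, h4 => by
    rw [List.range'_succ, List.filter_cons]
    rcases Nat.eq_or_lt_of_le h1 with h | h
    · subst h
      rw [if_pos h3, filt0 n (k + 1) p (fun x hx hx' => h4 x (by omega) (by omega) (by omega))]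
    · rw [if_neg (by rw [h4 k le_rfl (by omega) (by omega)]; simp)]
      exact filt1 n (k + 1) c p (by omega) (by omega) h3
        (fun x hx hx' hxc => h4 x (by omega) (by omega) hxc)

theorem filt2 : ∀ (n k c d : ℕ) (p : ℕ → Bool), k ≤ c → c < d → d < k + n → p c = true →
    p d = true → (∀ x, k ≤ x → x < k + n → x ≠ c → x ≠ d → p x = false) →
    (List.range' k n).filter p = [c, d]
  | 0, k, c, d, p, h1, h2, h3, _, _, _ => by omega
  | n + 1, k, c, d, p, h1, h2, h3, h4, h5, h6 => by
    rw [List.range'_succ, List.filter_cons]
    rcases Nat.eq_or_lt_of_le h1 with h | h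
    · subst h
      rw [if_pos h4, filt1 n (k + 1) d p (by omega) (by omega) h5
        (fun x hx hx' hxd => h6 x (by omega) (by omega) (by omega) hxd)]
    · rw [if_neg (by rw [h6 k le_rfl (by omega) (by omega) (by omega)]; simp)]
      exact filt2 n (k + 1) c d p (by omega) h2 (by omega) h4 h5
        (fun x hx hx' hxc hxd => h6 x (by omega) (by omega) hxc hxd)

theorem sub_fst (w : Word) (c d : ℕ) : (sub {c, d} w).map Prod.fst =
    (w.map Prod.fst).filter (fun x => decide (x = c ∨ x = d)) := by
  simp only [sub, List.filter_map, Finset.mem_insert, Finset.mem_singleton]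
  rfl

theorem find1 : ∀ (n k c : ℕ), k ≤ c → c < k + n →
    ((List.range' k n).map Lk).find? (fun l => decide (l.1 = c)) = some (Lk c)
  | 0, k, c, h1, h2 => by omega
  | n + 1, k, c, h1, h2 => by
    rw [List.range'_succ, List.map_cons, List.find?_cons]
    rcases Nat.eq_or_lt_of_le h1 with h | h
    · subst h
      simp [Lk]
    · have h3 : decide ((Lk k).1 = c) = false := decide_eq_false (by
        change ¬ (k = c)
        omega)
      rw [h3]
      exact find1 n (k + 1) c (by omega) (by omega)

theorem fstL0 (N : ℕ) : fstL (tw N) 0 = (0, false, true) := by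
  rw [fstL, tw_eq]; simp

theorem fstL1 (N : ℕ) : fstL (tw N) 1 = (1, true, false) := by
  rw [fstL, tw_eq]; simp

theorem fstL2 (N d : ℕ) (h2 : 2 ≤ d) (hd : d < 2 * N + 2) : fstL (tw N) d = Lk d := by
  have h := find1 (2 * N) 2 d h2 (by omega)
  rw [fstL, tw_eq]
  simp only [List.append_assoc, List.cons_append, List.nil_append]
  rw [List.find?_cons, List.find?_cons]
  have h3 : decide (((0 : ℕ), false, true).1 = d) = false := by
    simp only [decide_eq_false_iff_not]; omega
  have h4 : decide (((1 : ℕ), true, false).1 = d) = false := by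
    simp only [decide_eq_false_iff_not]; omega
  rw [h3, h4]
  simp only [List.find?_append, h]
  simp

theorem twd : TwdStmt := by
  intro N
  refine ⟨?_, ?_, ?_⟩
  · ext a
    simp only [labels, tw_fst, List.mem_toFinset, List.mem_append, List.mem_cons,
      List.mem_reverse, List.mem_range'_1, Finset.mem_range, List.not_mem_nil, or_false]
    omega
  · intro d hd
    rw [Finset.mem_range] at hd
    rcases Nat.lt_or_ge d 2 with h | h
    · rcases (by omega : d = 0 ∨ d = 1) with rfl | rfl
      · simp [sg, sn, fstL0, sT, eps, sgn]
      · simp [sg, sn, fstL1, sT, eps, sgn]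
    · have h0 : d ≠ 0 := by omega
      have h1 : d ≠ 1 := by omega
      simp only [sg, sn, fstL2 N d h hd, sT, eps, sgn, Lk, if_neg h0, if_neg h1]
      rcases Nat.mod_two_eq_zero_or_one d with h | h
      · simp [h]
      · simp [h]
  · intro c hc d hd
    rw [Finset.mem_range] at hc hd
    have key : (sub {c, d} (tw N)).map Prod.fst =
        ([0, 1].filter (fun x => decide (x = c ∨ x = d))) ++
        ((List.range' 2 (2 * N)).filter (fun x => decide (x = c ∨ x = d))) ++
        ([1, 0].filter (fun x => decide (x = c ∨ x = d))) ++
        ((List.range' 2 (2 * N)).filter (fun x => decide (x = c ∨ x = d))).reverse := by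
      rw [sub_fst, tw_fst, List.filter_append, List.filter_append, List.filter_append,
        List.filter_reverse]
    unfold il
    rw [key]
    unfold iT
    rcases Nat.lt_or_ge c 2 with h | h
    · rcases Nat.lt_or_ge d 2 with h' | h'
      · have e0 := filt0 (2 * N) 2 (fun x => decide (x = c ∨ x = d)) (fun x hx _ => by
          simp only [decide_eq_false_iff_not]; omega)
        rw [e0]
        rcases (by omega : c = 0 ∨ c = 1) with rfl | rfl <;>
        rcases (by omega : d = 0 ∨ d = 1) with rfl | rfl <;> simp
      · have e1 := filt1 (2 * N) 2 d (fun x => decide (x = c ∨ x = d)) h' (by omega)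
          (by simp) (fun x hx _ hxd => by
            simp only [decide_eq_false_iff_not]; omega)
        rw [e1]
        have hd0 : ¬ (0 = d) := by omega
        have hd1 : ¬ (1 = d) := by omega
        rcases (by omega : c = 0 ∨ c = 1) with rfl | rfl <;> simp [hd0, hd1, h']
    · rcases Nat.lt_or_ge d 2 with h' | h'
      · have e1 := filt1 (2 * N) 2 c (fun x => decide (x = c ∨ x = d)) h (by omega)
          (by simp) (fun x hx _ hxd => by
            simp only [decide_eq_false_iff_not]; omega)
        rw [e1]
        have hc0 : ¬ (0 = c) := by omega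
        have hc1 : ¬ (1 = c) := by omega
        rcases (by omega : d = 0 ∨ d = 1) with rfl | rfl <;> simp [hc0, hc1, h]
      · have hc0 : ¬ (0 = c) := by omega
        have hc1 : ¬ (1 = c) := by omega
        have hd0 : ¬ (0 = d) := by omega
        have hd1 : ¬ (1 = d) := by omega
        have hn : ¬ ((c < 2 ∧ 2 ≤ d) ∨ (d < 2 ∧ 2 ≤ c)) := by omega
        rcases Nat.lt_trichotomy c d with hcd | hcd | hcd
        · have e2 := filt2 (2 * N) 2 c d (fun x => decide (x = c ∨ x = d)) h hcd (by omega)
            (by simp) (by simp) (fun x hx _ hxc hxd => by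
              simp only [decide_eq_false_iff_not]; omega)
          rw [e2]
          have hne : c ≠ d := by omega
          simp [hc0, hc1, hd0, hd1, hne, hne.symm]
          omega
        · subst hcd
          have e1 := filt1 (2 * N) 2 c (fun x => decide (x = c ∨ x = c)) h (by omega)
            (by simp) (fun x hx _ hxd => by
              simp only [decide_eq_false_iff_not]; omega)
          rw [e1]
          simp [hc0, hc1]
        · have e2 := filt2 (2 * N) 2 d c (fun x => decide (x = c ∨ x = d)) h' hcd (by omega)
            (by simp) (by simp) (fun x hx _ hxc hxd => by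
              simp only [decide_eq_false_iff_not]; omega)
          rw [e2]
          have hne : c ≠ d := by omega
          simp [hc0, hc1, hd0, hd1, hne, hne.symm]
          omega

end Pool.Agent.VTP.H37
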