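import Pool.Agent.VTP.StmtsW

/-!
# Squad VTP, row TWV: the value of the invariant on the twist knots
-/

set_option autoImplicit false

namespace Pool.Agent.VTP.H37

open Finset Pool.Agent.ZOL Pool.Agent.VTP

theorem twv (hTWD : TwdStmt) (hTWS : TwsStmt) (hPCG : PcgStmt) (hQEX : QexStmt) : TwvStmt := by
  intro N
  obtain ⟨h1, h2, h3⟩ := hTWD N
  obtain ⟨g1, g2⟩ := hPCG (range (2 * N + 2)) (sg (tw N)) sT (sn (tw N)) (fun _ => -1)
    (il (tw N)) iT (fun d hd => (h2 d hd).1) (fun d hd => (h2 d hd).2) h3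
  constructor
  · rw [PW, h1, g1, hTWS.1 _ qq hQEX.1 N]
  · intro S hS hNI
    rw [h1] at hS ⊢
    rw [(g2 S hS).2]
    exact hTWS.2 N S hS (((g2 S hS).1).1 hNI)

end Pool.Agent.VTP.H37
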